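import Pool.Agent.Q88.Roots.Final

/-!
# MP_20dafb_an, Q1: hyponormal roots of spherically quasinormal tuples

All definitions are in `Pool.Agent.Q88.Roots.Defs`.

A commuting, jointly hyponormal tuple `T` for which some power `T^n` (`n ≥ 1`) is spherically
quasinormal is spherically quasinormal. This is the positive answer to Q1.

Idea of the proof.  Put `A = ∑ T_i* T_i`, `B = ∑_{|w| = n} T_w* T_w` and
`h_m(x) = ∑_{|w| = m} ‖T_w x‖²`. Joint hyponormality gives `‖A x‖² ≤ h_2(x)`, hence `h_m(x)` is
logarithmically convex in `m`; and `h_n(x) = ⟨B x, x⟩`, `h_{2n}(x) = ‖B x‖²`. For a vector with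
`‖(B - c) x‖ ≤ δ ‖x‖`, `c > 0`, the ratio `h_0 h_{2n} / h_n²` is `1 + O(δ²)`, so by convexity so
are `h_0 h_2 / h_1²` and `h_1 h_3 / h_2²`, and this bounds `(A T_i - T_i A) x` by `O(δ) ‖x‖`.
Cutting a vector in `O(1/δ)` slices with the functional calculus of `B` and letting `δ → 0` gives
`(A T_i - T_i A) B = 0`, and `T_i = 0` on the kernel of `B`.
-/

namespace Pool.Agent.Results.MP_20dafb_an.HyponormalRoots

open Q88.Roots

/-- Q1: if `T` is a commuting jointly hyponormal tuple and `T^n` is spherically quasinormal for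
some `n ≥ 1`, then `T` is spherically quasinormal. -/
theorem result {H : Type*} [NormedAddCommGroup H] [InnerProductSpace ℂ H] [CompleteSpace H]
    {d : ℕ} (T : Fin d → (H →L[ℂ] H)) (hc : Commuting T) (hh : JointlyHyponormal T)
    (n : ℕ) (hn : 1 ≤ n) (hq : SphericallyQuasinormal (pow T n)) : SphericallyQuasinormal T :=
  main T hc hh n hn hq

end Pool.Agent.Results.MP_20dafb_an.HyponormalRoots
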